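import Mathlib

/-!
# KACR: reconstruction of a generic curvature function from its slopes over the levels

Project KAC (MP_5b0138_an, Q2, theorem G), block RECON (author helper26). Everything here is about
smooth real functions `k` of period `L` (the curvature as a function of the arclength).

Result `ReconStmt`: if `k`, `k'` are generic (`Gen`) and for every common regular value `c` the sets
of the numbers `|k_s(p)|`, `k(p) = c`, of `k` and `k'` agree, then `k' = k` up to a translation and
a reflection of the circle.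
-/

namespace Pool.Agent.KACR

open Set

/-- `t = s` modulo `L` -/
def EqMod (L s t : ℝ) : Prop := ∃ n : ℤ, t = s + n * L

/-- The generic condition: `k` is smooth, of period `L`, the map `(k, k_s ^ 2, k_ss)` is injective
modulo `L`, and the critical points of `k` are nondegenerate. -/
structure Gen (L : ℝ) (k : ℝ → ℝ) : Prop where
  pos : 0 < L
  smooth : ContDiff ℝ ((⊤ : ℕ∞) : WithTop ℕ∞) k
  per : ∀ s, k (s + L) = k s
  inj : ∀ s t, k s = k t → deriv k s ^ 2 = deriv k t ^ 2 →
    deriv (deriv k) s = deriv (deriv k) t → EqMod L s t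
  nondeg : ∀ s, deriv k s = 0 → deriv (deriv k) s ≠ 0

/-- `c` is a regular value of `k` -/
def Reg (k : ℝ → ℝ) (c : ℝ) : Prop := ∀ s, k s = c → deriv k s ≠ 0

/-- the set of the absolute slopes of `k` over the level `c` -/
def SL (k : ℝ → ℝ) (c : ℝ) : Set ℝ := {w | ∃ s, k s = c ∧ w = |deriv k s|}

/-- `k` and `k'` have the same jet `(k, k_s ^ 2, k_ss)` at `s` and `t`. -/
def SameJet (k k' : ℝ → ℝ) (s t : ℝ) : Prop :=
  k' t = k s ∧ deriv k' t ^ 2 = deriv k s ^ 2 ∧ deriv (deriv k') t = deriv (deriv k) s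

/-- the bad levels of `k`: critical values, and levels with two different points (modulo `L`) with
the same absolute slope -/
def Bad (L : ℝ) (k : ℝ → ℝ) : Set ℝ :=
  {c | ¬ Reg k c} ∪
    {c | ∃ s t, ¬ EqMod L s t ∧ k s = c ∧ k t = c ∧ deriv k s ^ 2 = deriv k t ^ 2}

/-- ROW BCL (easy, 80 lines). The set of the bad levels is closed.

Proof. Let `c_n → c`, `c_n ∈ Bad`. If infinitely many `c_n` are critical values, `k s_n = c_n`,
`k_s s_n = 0` with `s_n ∈ [0, L]` (reduce modulo `L`); a limit point `s` has `k s = c`,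
`k_s s = 0`. Otherwise take `s_n, t_n` with `k s_n = k t_n = c_n`, equal squares of slopes, not
equal modulo `L`; reduce to `s_n ∈ [0, L]` and `s_n < t_n < s_n + L` (add a multiple of `L` to
`t_n`; the inequality is strict because they are not equal modulo `L`). Pass to limits `s ≤ t ≤ s +
L`. If `s < t < s + L` the pair `(s, t)` is not equal modulo `L` and `c ∈ Bad`. If `t = s`: by
Rolle there is `r_n` between `s_n` and `t_n` with `k_s r_n = 0`, `r_n → s`, so `k_s s = 0`,
`k s = c` and `c` is not regular. If `t = s + L` use Rolle between `t_n` and `s_n + L`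
(`k (s_n + L) = k s_n = k t_n`). -/
def BclStmt : Prop := ∀ (L : ℝ) (k : ℝ → ℝ), Gen L k → IsClosed (Bad L k)

/-- ROW BCO (easy, 100 lines). The set of the bad levels is countable.

Proof. The critical points are isolated (`k_ss ≠ 0` there, `k_s` vanishes at `s` and has nonzero
derivative), so there are countably many of them (a subset of `ℝ` all of whose points are isolated
in it is countable; Mathlib: `Set.Countable` of discrete subsets of a second countable space,
`countable_of_isolated...` or: `{s | k_s s = 0}` is closed and discrete) and countably many critical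
values. For the second set: the set `X` of the pairs `(s, t)` with `¬ EqMod L s t`,
`k s = k t`, `k_s s ^ 2 = k_s t ^ 2`, `k_s s ≠ 0` consists of isolated points: let `(s_n, t_n) → (s,
t)` be different points of `X` converging to a point of `X`. Write `s_n = s + a_n`, `t_n = t + b_n`,
`(a_n, b_n) ≠ 0`. Taylor: `k_s(s) a_n - k_s(t) b_n = o(|a_n| + |b_n|)` and
`2 k_s(s) k_ss(s) a_n - 2 k_s(t) k_ss(t) b_n = o(|a_n| + |b_n|)` (strict derivative of
`(x, y) ↦ (k x - k y, k_s x ^ 2 - k_s y ^ 2)` at `(s, t)`; its Jacobian is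
`-2 k_s(s) k_s(t) (k_ss(t) - k_ss(s))`, and it is not `0`, because `k_s(t) ^ 2 = k_s(s) ^ 2 ≠ 0` and
`k_ss(s) ≠ k_ss(t)` by the injectivity of `Gen`; a map with injective strict derivative at a point is
injective near it: `HasStrictFDerivAt.eventually_injective...` or
`HasStrictFDerivAt.injective...`). So `X` is a set of isolated points of `ℝ × ℝ`, countable, and the
image of `X` under `(s, t) ↦ k s` is countable; the pairs with `k_s s = 0` give critical values. -/
def BcoStmt : Prop := ∀ (L : ℝ) (k : ℝ → ℝ), Gen L k → (Bad L k).Countable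

/-- ROW PRE (easy, 60 lines). The points over a countable set of levels form a countable set (so
their complement is dense).

Proof. For one level `c` all points of `{s | k s = c}` are isolated in this set: where `k_s s ≠ 0`
clear; where `k_s s = 0` we have `k_ss s ≠ 0`, a strict local extremum (if `s_n → s`, `k s_n = c`,
`s_n ≠ s`, Rolle gives zeros `r_n` of `k_s` between, different from `s`, with `r_n → s`, which
contradicts `k_ss s ≠ 0`). A set of isolated points of `ℝ` is countable. Union over `c`. -/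
def PreStmt : Prop := ∀ (L : ℝ) (k : ℝ → ℝ), Gen L k → ∀ C : Set ℝ, C.Countable →
  {s | k s ∈ C}.Countable

/-- ROW LOC (medium, 150 lines). Over a level near which the sets of slopes agree and which is good
for both, the points have partners with the same jet.

Proof. Let `c₀ = k p`, `w₀ = |k_s p| > 0` (`c₀` is not bad). The hypothesis at `c₀` gives `p'` with
`k' p' = c₀`, `|k'_s p'| = w₀`. The branch: `k` is a local homeomorphism at `p`; for a sequence
`s_n → p`, `s_n ≠ p`, the level `k s_n → c₀` satisfies the hypothesis for large `n` (it holds for all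
`c` near `c₀`), so there is `t_n` with `k' t_n = k s_n`, `|k'_s t_n| = |k_s s_n|`; reduce modulo `L`
to `t_n ∈ [p' - L / 2, p' + L / 2]`. Every limit point `t` of `t_n` has `k' t = c₀`,
`|k'_s t| = w₀`, hence `t = p'` modulo `L` (`c₀` is not bad for `k'`), hence `t = p'`, so
`t_n → p'` (compactness). Now `k s_n - k p = k' t_n - k' p'` and
`k_s(s_n) ^ 2 - k_s(p) ^ 2 = k'_s(t_n) ^ 2 - k'_s(p') ^ 2`. Divide: the quotient
`(k_s(s_n) ^ 2 - k_s(p) ^ 2) / (k s_n - k p)` tends to `2 k_s k_ss / k_s = 2 k_ss(p)`, the other one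
to `2 k'_ss(p')` (`t_n ≠ p'` since `k s_n ≠ k p` for large `n`). So `k_ss(p) = k'_ss(p')`. -/
def LocStmt : Prop := ∀ (L : ℝ) (k k' : ℝ → ℝ), Gen L k → Gen L k' → ∀ p : ℝ,
  (∀ᶠ c in nhds (k p), SL k c = SL k' c) → k p ∉ Bad L k → k p ∉ Bad L k' →
  ∃ p', SameJet k k' p p'

/-- ROW JET (easy, 60 lines, assembly). The sets of jets agree.

Proof. Let `s` be given. The set `{r | k r ∉ Bad L k ∪ Bad L k'}` is dense (its complement is
countable by BCO and PRE; Mathlib: `Set.Countable.dense_compl`). For such `r` the level `k r` has a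
neighbourhood disjoint from both bad sets (BCL), where all levels are regular for both, so the
hypothesis of LOC holds; take `r_n → s` and `t_n ∈ [0, L]` with `SameJet k k' r_n t_n`
(`Gen.per` and the derivatives of a periodic function are periodic); a limit point `t` of `t_n` has
`SameJet k k' s t` (continuity of `k, k_s, k_ss`). -/
def JetStmt : Prop := ∀ (L : ℝ) (k k' : ℝ → ℝ), Gen L k → Gen L k' →
  (∀ c, Reg k c → Reg k' c → SL k c = SL k' c) → ∀ s, ∃ t, SameJet k k' s t

/-- ROW NEA (easy, 60 lines). Partners depend continuously on the point.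

Proof. Otherwise there are `η > 0` and `s_n → s₁` such that no `t` with `|t - t₁| < η` is a partner
of `s_n`. Let `t_n` be a partner of `s_n`, reduced modulo `L` to `[t₁ - L / 2, t₁ + L / 2]`. A limit
point `t` is a partner of `s₁`, as `t₁` is, so `t = t₁` modulo `L` by `Gen.inj` for `k'`, so
`t = t₁ + j L` with `|j L| ≤ L / 2`, `j = 0`; contradiction. -/
def NeaStmt : Prop := ∀ (L : ℝ) (k k' : ℝ → ℝ), Gen L k → Gen L k' →
  (∀ s, ∃ t, SameJet k k' s t) → ∀ s₁ t₁, SameJet k k' s₁ t₁ → ∀ η : ℝ, 0 < η →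
  ∃ δ : ℝ, 0 < δ ∧ ∀ s, |s - s₁| < δ → ∃ t, |t - t₁| < η ∧ SameJet k k' s t

/-- ROW RGP (medium, 150 lines). Near a regular point the partner moves with slope `± 1`.

Proof. Let `ε = k'_s(t₁) / k_s(s₁)`, `ε ^ 2 = 1` by the hypothesis. `k'` is strictly monotone on
`I = [t₁ - η, t₁ + η]`. By NEA for `|s - s₁| < δ` there is `t(s) ∈ I` with `SameJet k k' s (t s)`;
it is unique in `I` because `k'` is injective there. The function `t` is differentiable near `s₁`:
`t = (k'|I)⁻¹ ∘ k` (inverse function theorem, or directly: `t` is continuous by NEA at every point,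
`k'(t s) = k s`, and the quotient `(t r - t s) / (r - s) = [(k r - k s)/(r - s)] / [(k'(t r) -
k'(t s))/(t r - t s)] → k_s(s) / k'_s(t s)`, whose square is `1`). `k_s` and `k'_s ∘ t` do not
vanish near `s₁` and are continuous, so the sign of the quotient is constant `= ε`: `t' = ε`,
`t(s) = t₁ + ε (s - s₁)` (a function with derivative `ε` on an interval). -/
def RgpStmt : Prop := ∀ (L : ℝ) (k k' : ℝ → ℝ), Gen L k → Gen L k' →
  (∀ s, ∃ t, SameJet k k' s t) → ∀ s₁ t₁, SameJet k k' s₁ t₁ → ∀ ε : ℝ, ε ^ 2 = 1 →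
  deriv k' t₁ = ε * deriv k s₁ → deriv k s₁ ≠ 0 →
  ∃ δ : ℝ, 0 < δ ∧ ∀ s, |s - s₁| < δ → SameJet k k' s (t₁ + ε * (s - s₁))

/-- ROW CRP (medium, 200 lines). Passing through a critical point.

Proof. `k_s(s₁) = 0`, `σ = k_ss(s₁) = k'_ss(t₁) ≠ 0`. Choose `η < L / 4` such that `k'_ss` has the
sign of `σ` on `[t₁ - η, t₁ + η]`, and `δ₀ < min(δ, η)` such that `k_ss` has the sign of `σ` on
`[s₁ - δ₀, s₁ + δ₀]`; there `k_s(s)` has the sign of `σ (s - s₁)`, `k'_s(t)` the sign of
`σ (t - t₁)`, in particular they vanish only at the centres. Let `δ₁ ≤ δ₀` be as in NEA for `η`. For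
`s ∈ (s₁, s₁ + δ₁)` let `t(s)` be a partner with `|t(s) - t₁| < η`; it is the only one
(`Gen.inj` for `k'` and `η < L / 4`). `t(s) ≠ t₁` since `k_s(s) ≠ 0`. If `ε (t(s) - t₁) < 0` put
`r = s₁ + ε (t(s) - t₁) < s₁` (`ε ^ 2 = 1`), `r > s₁ - δ₀` if `η` is replaced by `δ₀` in NEA; by the hypothesis `t(s) =
t₁ + ε (r - s₁)` is the partner of `r`, so `r` and `s` have the same jets, so they are equal modulo
`L` (`Gen.inj` for `k`), but `0 < s - r < L`: contradiction. So `ε (t(s) - t₁) > 0` on
`(s₁, s₁ + δ₁)`, and `k'_s(t(s))`, of the sign of `σ ε`, equals `ε k_s(s)` (squares agree, `k_s(s)`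
has the sign of `σ`). RGP at `(s, t(s))` shows that `t(r) - ε r` is locally constant on
`(s₁, s₁ + δ₁)` (uniqueness of the near partner), hence constant there (an interval), and by NEA at
`s₁` it tends to `t₁ - ε s₁` as `r → s₁`. So `t(s) = t₁ + ε (s - s₁)`. At `s = s₁` the claim is the
hypothesis. -/
def CrpStmt : Prop := ∀ (L : ℝ) (k k' : ℝ → ℝ), Gen L k → Gen L k' →
  (∀ s, ∃ t, SameJet k k' s t) → ∀ s₁ t₁, SameJet k k' s₁ t₁ → ∀ ε : ℝ, ε ^ 2 = 1 →
  deriv k s₁ = 0 → ∀ δ : ℝ, 0 < δ →
  (∀ s, s₁ - δ < s → s ≤ s₁ → SameJet k k' s (t₁ + ε * (s - s₁))) →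
  ∃ δ' : ℝ, 0 < δ' ∧ ∀ s, s₁ ≤ s → s < s₁ + δ' → SameJet k k' s (t₁ + ε * (s - s₁))

/-- ROW GLB (easy, 120 lines, assembly of JET, RGP, CRP). The result of the block.

Proof. There is a point `s₀` with `k_s(s₀) ≠ 0` (the zeros are isolated, PRE or `Gen.nondeg`). By JET
take `t₀` with `SameJet k k' s₀ t₀`; `ε = k'_s(t₀) / k_s(s₀)`, `ε ^ 2 = 1`. Let `A` be the set of
the `x ≥ s₀` with `SameJet k k' s (t₀ + ε (s - s₀))` for all `s ∈ [s₀, x]`. `A` is closed and
contains `s₀`; it contains a right neighbourhood of every point `x ∈ A`: at `x > s₀`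
differentiate `k'(t₀ + ε (s - s₀)) = k(s)` from the left: `ε k'_s(t) = k_s(x)`, so
`k'_s(t) = ε k_s(x)` (`ε ^ 2 = 1`); if `k_s(x) ≠ 0` use RGP, if `k_s(x) = 0` use CRP. So
`A = [s₀, ∞)` (Mathlib: `IsClosed.Icc_subset_of_forall_exists_gt` on each `[s₀, x]`). Hence
`k'(t₀ + ε (s - s₀)) = k s` for all `s ≥ s₀`, and for all `s` by periodicity. If `ε = 1`:
`k' s = k (s + (s₀ - t₀))`; if `ε = -1`: `k' s = k (s₀ + t₀ - s)`. -/
def ReconStmt : Prop := ∀ (L : ℝ) (k k' : ℝ → ℝ), Gen L k → Gen L k' →
  (∀ c, Reg k c → Reg k' c → SL k c = SL k' c) →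
  ∃ s₀ : ℝ, (∀ s, k' s = k (s + s₀)) ∨ (∀ s, k' s = k (s₀ - s))

/-! ### Curves with the same curvature are congruent -/

/-- `g` is an arclength parametrisation (with unit tangent `exp (i a)`) and its curvature is
`k`. -/
structure Arc (k : ℝ → ℝ) (g : ℝ → ℂ) : Prop where
  unit : ∃ a : ℝ → ℝ, (∀ s, HasDerivAt a (k s) s) ∧
    ∀ s, HasDerivAt g (Complex.exp (a s * Complex.I)) s

/-- ROW TAN (easy, 80 lines). Every smooth unit speed curve is an `Arc` for its signed curvature
`k = Im (conj g' * g'')`.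

Proof. `|g'| = 1` gives `Re (conj g' * g'') = 0`, so `g'' = i k g'`. Let `a` be a primitive of `k`
with `exp (i a(0)) = g'(0)`; then `(g' exp (-i a))' = 0`, so `g' = exp (i a)`. -/
def TanStmt : Prop := ∀ g : ℝ → ℂ, ContDiff ℝ ((⊤ : ℕ∞) : WithTop ℕ∞) g →
  (∀ s, ‖deriv g s‖ = 1) →
  Arc (fun s => ((starRingEnd ℂ) (deriv g s) * deriv (deriv g) s).im) g

/-- ROW CGR (easy, 100 lines). Two curves with the same curvature up to a translation or a reflection
of the parameter have congruent images.

Proof. Case `k' s = k (s + s₀)`: `a'(s) - a(s + s₀)` has derivative `0`, so it is a constant `b`, and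
`g'(s) - exp (i b) g(s + s₀)` has derivative `exp (i a'(s)) - exp (i b) exp (i a (s + s₀)) = 0`: it is
a constant `v`. So `g' s = exp (i b) g(s + s₀) + v`: the isometry `z ↦ exp (i b) z + v` (with
`exp (i b)` of modulus `1`) maps the image of `g` onto the image of `g'`. Case `k' s = k (s₀ - s)`:
`h(s) = conj (g (s₀ - s))` has derivative `- conj (exp (i a(s₀ - s))) = exp (i (π - a(s₀ - s)))` and
`π - a(s₀ - s)` has derivative `k(s₀ - s) = k' s`; so `a'(s) + a(s₀ - s)` is constant and as before
`g' = exp (i b) h + v`. -/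
def CgrStmt : Prop := ∀ (k k' : ℝ → ℝ) (g g' : ℝ → ℂ), Arc k g → Arc k' g' →
  ∀ s₀ : ℝ, ((∀ s, k' s = k (s + s₀)) ∨ (∀ s, k' s = k (s₀ - s))) →
  ∃ F : ℂ ≃ᵢ ℂ, (∀ u v : ℂ, F u = F v → u = v) ∧ F '' Set.range g = Set.range g' ∧
    ∃ (b v : ℂ), ‖b‖ = 1 ∧ ((∀ z, F z = b * z + v) ∨ (∀ z, F z = b * (starRingEnd ℂ) z + v))

end Pool.Agent.KACR
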